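import Mathlib
import Pool.Agent.N392.Ab.Base

/-!
# The fiducial vectors in dimensions three and eight
-/

set_option autoImplicit false

open Finset ComplexConjugate
open Pool.Agent.N392.Ab
open scoped Classical

namespace Pool.Agent.L7h35.Par

variable {A : Type*} [AddCommGroup A] [Fintype A]

theorem norm_one_of (x : EuclideanSpace ℂ A) (h : ov x 0 0 = 1) : ‖x‖ = 1 := by
  have h1 := norm_sq_eq x
  rw [h] at h1
  have h2 : ‖x‖ ^ 2 = 1 := by exact_mod_cast h1
  exact (pow_eq_one_iff_of_nonneg (norm_nonneg _) two_ne_zero).1 h2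

/-- general form: a constant plus a peak -/
theorem ov_peak (β : ℂ) (s : ℂ) (a : A) (χ : AddChar A ℂ) :
    ov (fun k : A => s * (1 + if k = 0 then β else 0)) a χ =
      conj s * s * ((if χ = 0 then (Fintype.card A : ℂ) else 0) + conj β + β * χ (-a) +
        if a = 0 then conj β * β else 0) := by
  unfold ov
  have h1 : ∀ k : A, conj (s * (1 + if k = 0 then β else 0)) *
      (s * (1 + if k + a = 0 then β else 0)) * χ k =
      conj s * s * (χ k + (if k = 0 then conj β * χ k else 0) +
        (if k = -a then β * χ k else 0) +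
        (if k = 0 then (if k = -a then conj β * β * χ k else 0) else 0)) := by
    intro k
    have e1 : (k + a = 0) = (k = -a) := propext eq_neg_iff_add_eq_zero.symm
    simp only [e1, map_mul, map_add, map_one, apply_ite (starRingEnd ℂ), map_zero]
    split_ifs <;> ring
  rw [Finset.sum_congr rfl fun k _ => h1 k, ← Finset.mul_sum, Finset.sum_add_distrib,
    Finset.sum_add_distrib, Finset.sum_add_distrib, Finset.sum_ite_eq', Finset.sum_ite_eq',
    Finset.sum_ite_eq', if_pos (Finset.mem_univ _), if_pos (Finset.mem_univ _),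
    if_pos (Finset.mem_univ _), AddChar.sum_eq_ite, AddChar.map_zero_eq_one]
  have e2 : ((0 : A) = -a) = (a = 0) := propext ⟨fun h => by rw [← neg_eq_zero, ← h], fun h => by
    rw [h, neg_zero]⟩
  simp only [e2, mul_one]

/-- dimension eight -/
theorem eight (h8 : Fintype.card A = 8) (h2 : ∀ a : A, a + a = 0) :
    ∃ x : EuclideanSpace ℂ A, IsFiducial x ∧
      ∃ (v : A) (χ₀ : AddChar A ℂ) (c : ℂ), ∀ k, x (v - k) = c * χ₀ k * x k := by
  set s : ℂ := ((1 / Real.sqrt 12 : ℝ) : ℂ) with hs
  have hss : conj s * s = 1 / 12 := by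
    rw [hs, Complex.conj_ofReal, ← Complex.ofReal_mul, div_mul_div_comm, one_mul,
      Real.mul_self_sqrt (by norm_num)]
    push_cast
    rfl
  set β : ℂ := -2 + 2 * Complex.I with hβ
  have hcβ : conj β = -2 - 2 * Complex.I := by
    rw [hβ]
    simp [Complex.ext_iff]
  have hbb : conj β * β = 8 := by
    rw [hcβ, hβ]
    linear_combination (-4 : ℂ) * Complex.I_sq
  set x : EuclideanSpace ℂ A := WithLp.toLp 2 (fun k : A => s * (1 + if k = 0 then β else 0))
    with hx
  have hov : ∀ a χ, ov x a χ = 1 / 12 * ((if χ = 0 then (8 : ℂ) else 0) + conj β + β * χ (-a) +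
        if a = 0 then 8 else 0) := by
    intro a χ
    have h1 := ov_peak β s a χ
    rw [hss, hbb, h8] at h1
    exact_mod_cast h1
  have hχ : ∀ (a : A) (χ : AddChar A ℂ), χ (-a) = 1 ∨ χ (-a) = -1 := by
    intro a χ
    apply mul_self_eq_one_iff.1
    rw [← AddChar.map_add_eq_mul, ← neg_add, h2, neg_zero, AddChar.map_zero_eq_one]
  refine ⟨x, ?_, 0, 0, 1, fun k => ?_⟩
  · rw [isFiducial_iff]
    constructor
    · apply norm_one_of
      rw [hov, hcβ, hβ]
      simp
      ring
    · intro a χ hab
      have hr : 1 / Real.sqrt ((Fintype.card A : ℝ) + 1) = 1 / 3 := by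
        rw [h8]
        norm_num
      rw [hr, hov]
      by_cases ha : a = 0
      · have hχ0 : χ ≠ 0 := by tauto
        rw [if_pos ha, if_neg hχ0, ha, neg_zero, AddChar.map_zero_eq_one, hcβ, hβ]
        have e : (1 / 12 * (0 + (-2 - 2 * Complex.I) + (-2 + 2 * Complex.I) * 1 + 8) : ℂ) =
          ((1 / 3 : ℝ) : ℂ) := by push_cast; ring
        rw [e, Complex.norm_real]
        norm_num
      · rw [if_neg ha]
        by_cases hχ0 : χ = 0
        · rw [if_pos hχ0, hχ0, AddChar.zero_apply, hcβ, hβ]
          have e : (1 / 12 * (8 + (-2 - 2 * Complex.I) + (-2 + 2 * Complex.I) * 1 + 0) : ℂ) =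
            ((1 / 3 : ℝ) : ℂ) := by push_cast; ring
          rw [e, Complex.norm_real]
          norm_num
        · rw [if_neg hχ0, hcβ, hβ]
          rcases hχ a χ with h1 | h1
          · rw [h1]
            have e : (1 / 12 * (0 + (-2 - 2 * Complex.I) + (-2 + 2 * Complex.I) * 1 + 0) : ℂ) =
              ((-(1 / 3) : ℝ) : ℂ) := by push_cast; ring
            rw [e, Complex.norm_real]
            norm_num
          · rw [h1]
            have e : (1 / 12 * (0 + (-2 - 2 * Complex.I) + (-2 + 2 * Complex.I) * (-1) + 0) : ℂ) =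
              ((-(1 / 3) : ℝ) : ℂ) * Complex.I := by push_cast; ring
            rw [e, norm_mul, Complex.norm_real, Complex.norm_I]
            norm_num
  · rw [zero_sub, neg_eq_of_add_eq_zero_left (h2 k)]
    simp

/-- dimension three -/
theorem three (h3 : Fintype.card A = 3) :
    ∃ x : EuclideanSpace ℂ A, IsFiducial x ∧
      ∃ (v : A) (χ₀ : AddChar A ℂ) (c : ℂ), ∀ k, x (v - k) = c * χ₀ k * x k := by
  have h3' : ∀ a : A, a + a + a = 0 := by
    intro a
    have h := card_nsmul_eq_zero (x := a)
    rw [h3] at h
    rw [← h]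
    abel
  obtain ⟨g, hg⟩ : ∃ g : A, g ≠ 0 := by
    have : 1 < Fintype.card A := by omega
    have := Fintype.one_lt_card_iff_nontrivial.1 this
    exact exists_ne 0
  have hgg : g + g = -g := eq_neg_of_add_eq_zero_left (h3' g)
  have hg2 : g ≠ -g := by
    intro h
    rw [← hgg] at h
    exact hg (by simpa using h)
  have hng : -g ≠ 0 := neg_ne_zero.2 hg
  have huniv : (Finset.univ : Finset A) = {0, g, -g} := by
    symm
    apply Finset.eq_univ_of_card
    rw [h3, Finset.card_insert_of_notMem, Finset.card_insert_of_notMem, Finset.card_singleton]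
    · simpa using hg2
    · simp only [Finset.mem_insert, Finset.mem_singleton, not_or]
      exact ⟨hg.symm, hng.symm⟩
  have hcases : ∀ a : A, a = 0 ∨ a = g ∨ a = -g := by
    intro a
    have := Finset.mem_univ a
    rw [huniv] at this
    simpa using this
  set s : ℂ := ((1 / Real.sqrt 2 : ℝ) : ℂ) with hs
  have hss : conj s * s = 1 / 2 := by
    rw [hs, Complex.conj_ofReal, ← Complex.ofReal_mul, div_mul_div_comm, one_mul,
      Real.mul_self_sqrt (by norm_num)]
    push_cast
    rfl
  set x : EuclideanSpace ℂ A := WithLp.toLp 2 (fun k : A => s * ((if k = g then 1 else 0) -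
    (if k = -g then 1 else 0))) with hx
  have hx0 : x 0 = 0 := by
    simp [hx, hg.symm, hng.symm]
  have hxg : x g = s := by
    simp [hx, hg2]
  have hxn : x (-g) = -s := by
    simp [hx, hg2.symm]
  have hov : ∀ a χ, ov x a χ = conj s * x (g + a) * χ g - conj s * x (-g + a) * χ (-g) := by
    intro a χ
    unfold ov
    rw [huniv, Finset.sum_insert, Finset.sum_insert, Finset.sum_singleton]
    · rw [hx0, hxg, hxn]
      simp
      ring
    · simpa using hg2
    · simp only [Finset.mem_insert, Finset.mem_singleton, not_or]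
      exact ⟨hg.symm, hng.symm⟩
  refine ⟨x, ?_, 0, 0, -1, fun k => ?_⟩
  · rw [isFiducial_iff]
    constructor
    · apply norm_one_of
      rw [hov, add_zero, add_zero, hxg, hxn, hss]
      simp
      linear_combination hss
    · intro a χ hab
      have hr : 1 / Real.sqrt ((Fintype.card A : ℝ) + 1) = 1 / 2 := by
        rw [h3]
        norm_num
      rw [hr, hov]
      rcases hcases a with ha | ha | ha
      · have hχ0 : χ ≠ 0 := by tauto
        have hsum : χ g + χ (-g) = -1 := by
          have h1 := AddChar.sum_eq_zero_iff_ne_zero.2 hχ0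
          rw [huniv, Finset.sum_insert, Finset.sum_insert, Finset.sum_singleton,
            AddChar.map_zero_eq_one] at h1
          · linear_combination h1
          · simpa using hg2
          · simp only [Finset.mem_insert, Finset.mem_singleton, not_or]
            exact ⟨hg.symm, hng.symm⟩
        rw [ha, add_zero, add_zero, hxg, hxn]
        have e : conj s * s * χ g - conj s * -s * χ (-g) = ((-(1 / 2) : ℝ) : ℂ) := by
          push_cast
          linear_combination (χ g + χ (-g)) * hss + 1 / 2 * hsum
        rw [e, Complex.norm_real]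
        norm_num
      · rw [ha, hgg, neg_add_cancel, hx0, hxn]
        have e : conj s * -s * χ g - conj s * 0 * χ (-g) = ((-(1 / 2) : ℝ) : ℂ) * χ g := by
          push_cast
          linear_combination (-χ g) * hss
        rw [e, norm_mul, Complex.norm_real, norm_char]
        norm_num
      · have e0 : -g + -g = g := by rw [← neg_add, hgg, neg_neg]
        rw [ha, add_neg_cancel, e0, hx0, hxg]
        have e : conj s * 0 * χ g - conj s * s * χ (-g) = ((-(1 / 2) : ℝ) : ℂ) * χ (-g) := by
          push_cast
          linear_combination (-χ (-g)) * hss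
        rw [e, norm_mul, Complex.norm_real, norm_char]
        norm_num
  · rw [zero_sub, AddChar.zero_apply, mul_one]
    rcases hcases k with hk | hk | hk
    · rw [hk, neg_zero, hx0]
      simp
    · rw [hk, hxn, hxg]
      simp
    · rw [hk, neg_neg, hxn, hxg]
      simp

end Pool.Agent.L7h35.Par
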