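import Mathlib
import Pool.Agent.TH560.RU.Cond
import Pool.Agent.TH560.RU.Main

/-!
# Galois conjugation of sums of roots of unity
-/

set_option autoImplicit false

open Polynomial Finset

namespace Pool.Agent.L7h35.Par

/-- a rational relation between roots of unity survives raising the roots to a power -/
theorem gal {ι : Type*} (s : Finset ι) (n : ι → ℚ) (z : ι → ℂ) {N : ℕ} (hN : 0 < N)
    (hz : ∀ i ∈ s, z i ^ N = 1) (h : ∑ i ∈ s, (n i : ℂ) * z i = 0) {v : ℕ} (hv : v.Coprime N) :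
    ∑ i ∈ s, (n i : ℂ) * z i ^ v = 0 := by
  have hζ := Complex.isPrimitiveRoot_exp N hN.ne'
  set ζ := Complex.exp (2 * Real.pi * Complex.I / (N : ℕ)) with hζdef
  have : NeZero N := ⟨hN.ne'⟩
  have hb : ∀ i, ∃ b : ℕ, i ∈ s → ζ ^ b = z i := by
    intro i
    by_cases hi : i ∈ s
    · obtain ⟨b, -, hb⟩ := hζ.eq_pow_of_pow_eq_one (hz i hi)
      exact ⟨b, fun _ => hb⟩
    · exact ⟨0, fun h => absurd h hi⟩
  choose b hb using hb
  set f : ℚ[X] := ∑ i ∈ s, C (n i) * X ^ (b i) with hf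
  have h1 : ∀ y : ℂ, aeval y f = ∑ i ∈ s, (n i : ℂ) * y ^ (b i) := by
    intro y
    rw [hf, map_sum]
    refine Finset.sum_congr rfl fun i _ => ?_
    rw [map_mul, aeval_C, map_pow, aeval_X]
    rfl
  have h2 : aeval ζ f = 0 := by
    rw [h1, ← h]
    refine Finset.sum_congr rfl fun i hi => ?_
    rw [hb i hi]
  have h3 := Pool.Agent.TH560.RU.galois_pow hN hζ hv h2
  rw [h1] at h3
  rw [← h3]
  refine Finset.sum_congr rfl fun i hi => ?_
  rw [← hb i hi, ← pow_mul, ← pow_mul, mul_comm v]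

/-- the same for an equality of two sums -/
theorem gal_eq {ι κ : Type*} [Fintype ι] [Fintype κ] (n : ι → ℚ) (z : ι → ℂ) (m : κ → ℚ)
    (w : κ → ℂ) {N : ℕ} (hN : 0 < N) (hz : ∀ i, z i ^ N = 1) (hw : ∀ i, w i ^ N = 1)
    (h : ∑ i, (n i : ℂ) * z i = ∑ i, (m i : ℂ) * w i) {v : ℕ} (hv : v.Coprime N) :
    ∑ i, (n i : ℂ) * z i ^ v = ∑ i, (m i : ℂ) * w i ^ v := by
  have h1 := gal (Finset.univ : Finset (ι ⊕ κ)) (Sum.elim n fun i => - m i) (Sum.elim z w) hN
    (by rintro (i | i) _ <;> simp [hz, hw]) (by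
      rw [Fintype.sum_sum_type]
      simp only [Sum.elim_inl, Sum.elim_inr]
      rw [h]
      push_cast
      simp) hv
  rw [Fintype.sum_sum_type] at h1
  simp only [Sum.elim_inl, Sum.elim_inr] at h1
  push_cast at h1
  simp only [neg_mul, Finset.sum_neg_distrib] at h1
  linear_combination h1

end Pool.Agent.L7h35.Par
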