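import Mathlib
import Pool.Agent.N392.Ab.Base
import Pool.Agent.L7h35.Par.Gal

/-!
# Fiducial vectors that are eigenvectors of a displaced parity operator: the overlaps
-/

set_option autoImplicit false

open Finset ComplexConjugate
open Pool.Agent.N392.Ab

namespace Pool.Agent.L7h35.Par

variable {A : Type*} [AddCommGroup A] [Fintype A]

omit [Fintype A] in
theorem char_sq [Finite A] (χ : AddChar A ℂ) (b : A) : χ b * conj (χ b) = 1 := by
  rw [conj_char, ← AddChar.map_add_eq_mul, add_neg_cancel, AddChar.map_zero_eq_one]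

theorem char_pow_card (χ : AddChar A ℂ) (b : A) : χ b ^ Fintype.card A = 1 := by
  rw [← AddChar.map_nsmul_eq_pow, card_nsmul_eq_zero, AddChar.map_zero_eq_one]

/-- sum of products of overlaps, along a shift -/
theorem J1 (x : A → ℂ) (a : A) (ψ : AddChar A ℂ) :
    ∑ χ : AddChar A ℂ, conj (ov x a χ) * ov x a (χ + ψ) =
      Fintype.card A * ∑ k, ψ k * (x k * conj (x k)) * (x (k + a) * conj (x (k + a))) := by
  classical
  unfold ov
  have h0 : ∀ χ : AddChar A ℂ, conj (∑ k, conj (x k) * x (k + a) * χ k) *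
      (∑ l, conj (x l) * x (l + a) * (χ + ψ) l) =
      ∑ k, ∑ l, (x k * conj (x (k + a)) * conj (x l) * x (l + a) * ψ l) * χ (l - k) := by
    intro χ
    rw [map_sum, Finset.sum_mul_sum]
    refine Finset.sum_congr rfl fun k _ => Finset.sum_congr rfl fun l _ => ?_
    rw [map_mul (starRingEnd ℂ), map_mul (starRingEnd ℂ), Complex.conj_conj, conj_char,
      AddChar.add_apply, sub_eq_add_neg, AddChar.map_add_eq_mul]
    ring
  rw [Finset.sum_congr rfl fun χ _ => h0 χ, Finset.sum_comm, Finset.mul_sum]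
  refine Finset.sum_congr rfl fun k _ => ?_
  rw [Finset.sum_comm]
  have h1 : ∀ l : A, ∑ χ : AddChar A ℂ,
      (x k * conj (x (k + a)) * conj (x l) * x (l + a) * ψ l) * χ (l - k) =
      if l = k then (Fintype.card A : ℂ) *
        (x k * conj (x (k + a)) * conj (x l) * x (l + a) * ψ l) else 0 := by
    intro l
    rw [← Finset.mul_sum, AddChar.sum_apply_eq_ite]
    by_cases h : l = k
    · rw [if_pos h, if_pos (sub_eq_zero.2 h)]
      ring
    · rw [if_neg h, if_neg (sub_ne_zero.2 h), mul_zero]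
  rw [Finset.sum_congr rfl fun l _ => h1 l, Finset.sum_ite_eq', if_pos (Finset.mem_univ _)]
  ring

/-- sum of products of overlaps with no shift -/
theorem J2 (x : A → ℂ) (a : A) (ψ : AddChar A ℂ) :
    ∑ χ : AddChar A ℂ, ov x 0 χ * ov x 0 (ψ - χ) * χ (-a) =
      Fintype.card A * ∑ k, ψ k * (x k * conj (x k)) * (x (k + a) * conj (x (k + a))) := by
  classical
  unfold ov
  have h0 : ∀ χ : AddChar A ℂ, (∑ k, conj (x k) * x (k + 0) * χ k) *
      (∑ l, conj (x l) * x (l + 0) * (ψ - χ) l) * χ (-a) =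
      ∑ l, ∑ k, (conj (x k) * x k * (conj (x l) * x l) * ψ l) * χ (k - (l + a)) := by
    intro χ
    rw [Finset.sum_mul_sum, Finset.sum_comm, Finset.sum_mul]
    refine Finset.sum_congr rfl fun l _ => ?_
    rw [Finset.sum_mul]
    refine Finset.sum_congr rfl fun k _ => ?_
    rw [AddChar.sub_apply, add_zero, add_zero]
    have h2 : χ (k - (l + a)) = χ k * χ (-l) * χ (-a) := by
      rw [← AddChar.map_add_eq_mul, ← AddChar.map_add_eq_mul]
      congr 1
      abel
    rw [h2]
    ring
  rw [Finset.sum_congr rfl fun χ _ => h0 χ, Finset.sum_comm, Finset.mul_sum]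
  refine Finset.sum_congr rfl fun l _ => ?_
  rw [Finset.sum_comm]
  have h1 : ∀ k : A, ∑ χ : AddChar A ℂ,
      (conj (x k) * x k * (conj (x l) * x l) * ψ l) * χ (k - (l + a)) =
      if k = l + a then (Fintype.card A : ℂ) *
        (conj (x k) * x k * (conj (x l) * x l) * ψ l) else 0 := by
    intro k
    rw [← Finset.mul_sum, AddChar.sum_apply_eq_ite]
    by_cases h : k = l + a
    · rw [if_pos h, if_pos (sub_eq_zero.2 h)]
      ring
    · rw [if_neg h, if_neg (sub_ne_zero.2 h), mul_zero]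
  rw [Finset.sum_congr rfl fun l _ => h1 l, Finset.sum_ite_eq', if_pos (Finset.mem_univ _)]
  ring

/-- the sum of `J1` over all shifts -/
theorem J3 (x : A → ℂ) (ψ : AddChar A ℂ) :
    ∑ a : A, ∑ χ : AddChar A ℂ, conj (ov x a χ) * ov x a (χ + ψ) =
      Fintype.card A * (ov x 0 ψ * ov x 0 0) := by
  simp_rw [J1]
  rw [← Finset.mul_sum]
  congr 1
  rw [Finset.sum_comm]
  have h0 : ∀ k : A, ∑ a : A, ψ k * (x k * conj (x k)) * (x (k + a) * conj (x (k + a))) =
      ψ k * (x k * conj (x k)) * ov x 0 0 := by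
    intro k
    rw [← Finset.mul_sum]
    congr 1
    unfold ov
    refine Fintype.sum_equiv (Equiv.addLeft k) _ _ fun a => ?_
    rw [Equiv.coe_addLeft, add_zero, AddChar.zero_apply]
    ring
  rw [Finset.sum_congr rfl fun k _ => h0 k, ← Finset.sum_mul]
  congr 1
  unfold ov
  refine Finset.sum_congr rfl fun k _ => ?_
  rw [add_zero]
  ring

/-- the parity symmetry of the overlaps -/
theorem sym (x : A → ℂ) (v : A) (χ₀ : AddChar A ℂ) (c : ℂ)
    (h : ∀ k, x (v - k) = c * χ₀ k * x k) (a : A) (χ : AddChar A ℂ) :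
    ov x a χ = (conj c * c) * (χ₀ (-a) * χ (v - a)) * conj (ov x a χ) := by
  unfold ov
  rw [map_sum, Finset.mul_sum]
  symm
  refine Fintype.sum_equiv (Equiv.subLeft (v - a)) _ _ fun k => ?_
  rw [Equiv.subLeft_apply, map_mul (starRingEnd ℂ), map_mul (starRingEnd ℂ), Complex.conj_conj,
    conj_char]
  have h1 : v - a - k + a = v - k := by abel
  have h2 : v - a - k = v - (a + k) := by abel
  rw [h1, h k, h2, h (a + k), map_mul (starRingEnd ℂ), map_mul (starRingEnd ℂ), conj_char]
  have h3 : χ (v - (a + k)) = χ (v - a) * χ (-k) := by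
    rw [← AddChar.map_add_eq_mul]
    congr 1
    abel
  have h4 : χ₀ (-(a + k)) * χ₀ k = χ₀ (-a) := by
    rw [← AddChar.map_add_eq_mul]
    congr 1
    abel
  have h5 : a + k = k + a := add_comm a k
  rw [h3, ← h4, h5]
  ring

end Pool.Agent.L7h35.Par
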