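import Mathlib
import Pool.Agent.L7h35.Par.Core

/-!
# Fiducial vectors that are eigenvectors of a displaced parity operator: the dimensions
-/

set_option autoImplicit false

open Finset ComplexConjugate
open Pool.Agent.N392.Ab
open scoped Classical

namespace Pool.Agent.L7h35.Par

variable {A : Type*} [AddCommGroup A] [Fintype A]

/-- `√(d+1)` -/
noncomputable def S (A : Type*) [Fintype A] : ℂ := ((Real.sqrt ((Fintype.card A : ℝ) + 1) : ℝ) : ℂ)

theorem S_sq (A : Type*) [Fintype A] : S A * S A = (Fintype.card A : ℂ) + 1 := by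
  unfold S
  rw [← Complex.ofReal_mul, Real.mul_self_sqrt (by positivity)]
  push_cast
  rfl

theorem S_conj (A : Type*) [Fintype A] : conj (S A) = S A := by
  unfold S
  rw [Complex.conj_ofReal]

theorem S_norm (A : Type*) [Fintype A] : ‖S A‖ = Real.sqrt ((Fintype.card A : ℝ) + 1) := by
  unfold S
  rw [Complex.norm_real, Real.norm_eq_abs, abs_of_nonneg (Real.sqrt_nonneg _)]

theorem S_ne (A : Type*) [Fintype A] : S A ≠ 0 := by
  rw [← norm_pos_iff, S_norm]
  positivity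

/-- the normalised overlaps -/
noncomputable def gam (x : A → ℂ) (a : A) (χ : AddChar A ℂ) : ℂ :=
  if a = 0 ∧ χ = 0 then 1 else S A * ov x a χ

variable {x : EuclideanSpace ℂ A}

theorem ov_zero (hx : IsFiducial x) : ov x 0 0 = 1 := by
  rw [isFiducial_iff] at hx
  rw [← norm_sq_eq, hx.1]
  norm_num

theorem S_ov (hx : IsFiducial x) (a : A) (χ : AddChar A ℂ) :
    S A * ov x a χ = gam x a χ + if a = 0 ∧ χ = 0 then S A - 1 else 0 := by
  unfold gam
  split_ifs with h
  · rw [h.1, h.2, ov_zero hx]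
    ring
  · ring

theorem c_norm (hx : IsFiducial x) {v : A} {χ₀ : AddChar A ℂ} {c : ℂ}
    (h : ∀ k, x (v - k) = c * χ₀ k * x k) : conj c * c = 1 := by
  have h1 := sym x v χ₀ c h 0 0
  rw [ov_zero hx] at h1
  simp at h1
  exact h1.symm

theorem gam_sq (hx : IsFiducial x) {v : A} {χ₀ : AddChar A ℂ} {c : ℂ}
    (h : ∀ k, x (v - k) = c * χ₀ k * x k) (a : A) (χ : AddChar A ℂ) :
    gam x a χ ^ 2 = χ₀ (-a) * χ (v - a) := by
  unfold gam
  split_ifs with h0
  · rw [h0.1, h0.2]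
    simp
  · have h1 := sym x v χ₀ c h a χ
    rw [c_norm hx h, one_mul] at h1
    have h2 : ov x a χ * conj (ov x a χ) = 1 / ((Fintype.card A : ℂ) + 1) := by
      apply ov_sq_of
      rw [isFiducial_iff] at hx
      apply hx.2
      tauto
    have h3 : (S A * ov x a χ) ^ 2 = (S A * S A) * (χ₀ (-a) * χ (v - a)) *
        (ov x a χ * conj (ov x a χ)) := by
      linear_combination (S A * S A * ov x a χ) * h1
    rw [h3, h2, S_sq]
    have h4 := card1_ne (A := A)
    field_simp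

theorem gam_pow (hx : IsFiducial x) {v : A} {χ₀ : AddChar A ℂ} {c : ℂ}
    (h : ∀ k, x (v - k) = c * χ₀ k * x k) (a : A) (χ : AddChar A ℂ) :
    gam x a χ ^ (2 * Fintype.card A) = 1 := by
  rw [pow_mul, gam_sq hx h, mul_pow, char_pow_card, char_pow_card, one_mul]

theorem gam_norm (hx : IsFiducial x) {v : A} {χ₀ : AddChar A ℂ} {c : ℂ}
    (h : ∀ k, x (v - k) = c * χ₀ k * x k) (a : A) (χ : AddChar A ℂ) : ‖gam x a χ‖ = 1 := by
  have h1 := congrArg norm (gam_pow hx h a χ)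
  rw [norm_pow, norm_one] at h1
  exact (pow_eq_one_iff_of_nonneg (norm_nonneg _) (by
    have := Fintype.card_pos (α := A)
    omega)).1 h1

theorem gam_conj (a : A) (χ : AddChar A ℂ) (h : a = 0) : conj (gam x a χ) = gam x a (-χ) := by
  subst h
  unfold gam
  simp only [true_and, neg_eq_zero]
  split_ifs with h0
  · simp
  · rw [map_mul (starRingEnd ℂ), S_conj]
    congr 1
    unfold ov
    rw [map_sum]
    refine Finset.sum_congr rfl fun k _ => ?_
    rw [map_mul (starRingEnd ℂ), map_mul (starRingEnd ℂ), Complex.conj_conj, conj_char, add_zero,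
      AddChar.neg_apply]
    ring

/-- the relation giving `√(d+1)` -/
theorem S_rel (hx : IsFiducial x) {v : A} {χ₀ : AddChar A ℂ} {c : ℂ}
    (h : ∀ k, x (v - k) = c * χ₀ k * x k) {ψ : AddChar A ℂ} (hψ : ψ ≠ 0) :
    S A * (((Fintype.card A : ℂ) - 2) * gam x 0 ψ) =
      ∑ a : A, ∑ χ : AddChar A ℂ, conj (gam x a χ) * gam x a (χ + ψ) - 2 * gam x 0 ψ := by
  have h1 := J3 x ψ
  rw [ov_zero hx, mul_one] at h1
  have h2 : S A * S A * ∑ a : A, ∑ χ : AddChar A ℂ, conj (ov x a χ) * ov x a (χ + ψ) =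
      ∑ a : A, ∑ χ : AddChar A ℂ, (conj (gam x a χ) * gam x a (χ + ψ) +
        ((if a = 0 then (if χ = 0 then (S A - 1) * gam x 0 ψ else 0) else 0) +
        (if a = 0 then (if χ = -ψ then (S A - 1) * gam x 0 ψ else 0) else 0))) := by
    rw [Finset.mul_sum]
    refine Finset.sum_congr rfl fun a _ => ?_
    rw [Finset.mul_sum]
    refine Finset.sum_congr rfl fun χ _ => ?_
    have h3 : S A * S A * (conj (ov x a χ) * ov x a (χ + ψ)) =
        conj (S A * ov x a χ) * (S A * ov x a (χ + ψ)) := by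
      rw [map_mul (starRingEnd ℂ), S_conj]
      ring
    rw [h3, S_ov hx, S_ov hx, map_add (starRingEnd ℂ)]
    by_cases ha : a = 0
    · subst ha
      by_cases hχ : χ = 0
      · subst hχ
        have h4 : ¬ ((0 : AddChar A ℂ) = -ψ) := fun h5 => hψ (by rw [← neg_eq_zero, ← h5])
        have h6 : gam x (0 : A) 0 = 1 := by unfold gam; simp
        simp only [zero_add, true_and, if_true, if_neg h4, if_neg hψ, h6, map_one, map_sub, S_conj]
        ring
      · by_cases hχ2 : χ = -ψ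
        · subst hχ2
          have h6 : gam x (0 : A) 0 = 1 := by unfold gam; simp
          rw [neg_add_cancel, h6, gam_conj 0 (-ψ) rfl, neg_neg]
          simp only [true_and, if_true, if_neg hχ, map_zero]
          ring
        · have h7 : ¬ (χ + ψ = 0) := fun h8 => hχ2 (eq_neg_of_add_eq_zero_left h8)
          simp only [true_and, if_true, if_neg hχ, if_neg hχ2, if_neg h7, map_zero]
          ring
    · simp only [ha, false_and, if_false, map_zero]
      ring
  rw [h1] at h2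
  simp only [Finset.sum_add_distrib, Finset.sum_ite_irrel, Finset.sum_const_zero,
    Finset.sum_ite_eq', Finset.mem_univ, if_true] at h2
  have h9 : gam x 0 ψ = S A * ov x 0 ψ := by
    unfold gam
    rw [if_neg (fun h0 => hψ h0.2)]
  linear_combination h2 + S A * (Fintype.card A : ℂ) * h9

/-- `√(d+1)` lies in the `2d`-th cyclotomic field -/
theorem S_mem (hd : 3 ≤ Fintype.card A) (hx : IsFiducial x) {v : A} {χ₀ : AddChar A ℂ} {c : ℂ}
    (h : ∀ k, x (v - k) = c * χ₀ k * x k) {ζ : ℂ}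
    (hζ : IsPrimitiveRoot ζ (2 * Fintype.card A)) :
    S A ∈ IntermediateField.adjoin ℚ ({ζ} : Set ℂ) := by
  have hN : 0 < 2 * Fintype.card A := by omega
  obtain ⟨ψ, hψ⟩ : ∃ ψ : AddChar A ℂ, ψ ≠ 0 := by
    have h1 : 1 < Fintype.card (AddChar A ℂ) := by
      rw [AddChar.card_eq]
      omega
    have := Fintype.one_lt_card_iff_nontrivial.1 h1
    exact exists_ne 0
  have h1 := S_rel hx h hψ
  have hg : ∀ (a : A) (χ : AddChar A ℂ), gam x a χ ∈ IntermediateField.adjoin ℚ ({ζ} : Set ℂ) :=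
    fun a χ => Pool.Agent.TH560.RU.mem_adjoin_of_pow hN hζ (gam_pow hx h a χ)
  have hgc : ∀ (a : A) (χ : AddChar A ℂ),
      conj (gam x a χ) ∈ IntermediateField.adjoin ℚ ({ζ} : Set ℂ) :=
    fun a χ => Pool.Agent.TH560.RU.mem_adjoin_of_pow hN hζ (by
      rw [← map_pow, gam_pow hx h a χ, map_one])
  have h2 : ∑ a : A, ∑ χ : AddChar A ℂ, conj (gam x a χ) * gam x a (χ + ψ) - 2 * gam x 0 ψ ∈
      IntermediateField.adjoin ℚ ({ζ} : Set ℂ) := by
    refine sub_mem (sum_mem fun a _ => sum_mem fun χ _ => mul_mem (hgc a χ) (hg _ _)) ?_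
    exact mul_mem (ofNat_mem _ 2) (hg _ _)
  rw [← h1] at h2
  have h3 : ((Fintype.card A : ℂ) - 2) * gam x 0 ψ ∈
      IntermediateField.adjoin ℚ ({ζ} : Set ℂ) := by
    refine mul_mem (sub_mem (natCast_mem _ _) (ofNat_mem _ 2)) (hg _ _)
  have h4 : ((Fintype.card A : ℂ) - 2) * gam x 0 ψ ≠ 0 := by
    refine mul_ne_zero ?_ ?_
    · rw [sub_ne_zero]
      have : Fintype.card A ≠ 2 := by omega
      exact_mod_cast this
    · rw [← norm_pos_iff, gam_norm hx h]
      exact one_pos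
  have h5 := div_mem h2 h3
  rwa [mul_div_assoc, div_self h4, mul_one] at h5

/-- `d + 1` is a square -/
theorem exists_m (hd : 3 ≤ Fintype.card A) (hx : IsFiducial x) {v : A} {χ₀ : AddChar A ℂ} {c : ℂ}
    (h : ∀ k, x (v - k) = c * χ₀ k * x k) :
    ∃ m : ℕ, Fintype.card A + 1 = m ^ 2 := by
  have hN : 0 < 2 * Fintype.card A := by omega
  have hζ := Complex.isPrimitiveRoot_exp (2 * Fintype.card A) hN.ne'
  have h1 := S_mem hd hx h hζ
  set ζ := Complex.exp (2 * Real.pi * Complex.I / (2 * Fintype.card A : ℕ)) with hζdef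
  obtain ⟨D, m, hDm, hD⟩ := Nat.sq_mul_squarefree (Fintype.card A + 1)
  have hm0 : (m : ℂ) ≠ 0 := by
    have : m ≠ 0 := by
      rintro rfl
      simp at hDm
    exact_mod_cast this
  have h2 : S A / m ∈ IntermediateField.adjoin ℚ ({ζ} : Set ℂ) :=
    div_mem h1 (natCast_mem _ _)
  have h3 : (S A / m) ^ 2 = ((D : ℤ) : ℂ) := by
    rw [div_pow, pow_two, S_sq]
    have h4 : (Fintype.card A : ℂ) + 1 = (m : ℂ) ^ 2 * D := by exact_mod_cast hDm.symm
    rw [h4]
    push_cast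
    field_simp
  obtain ⟨c1, c2, -⟩ := Pool.Agent.TH560.RU.conductor hN hζ (D : ℤ)
    (Pool.Agent.TH560.RU.squarefree_int hD) _ h2 h3
  have hD1 : D = 1 := by
    by_contra hne
    obtain ⟨q, hq, hqD⟩ := Nat.exists_prime_and_dvd hne
    have h5 : q ∣ Fintype.card A + 1 := by
      rw [← hDm]
      exact Dvd.dvd.mul_left hqD _
    have h6 := c1 q hq (by exact_mod_cast hqD)
    by_cases hq2 : q = 2
    · subst hq2
      have h7 := c2 (by exact_mod_cast hqD)
      omega
    · have h8 : q.Coprime 2 := (Nat.coprime_primes hq Nat.prime_two).2 hq2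
      have h9 := h8.dvd_of_dvd_mul_left h6
      have h10 := (Nat.dvd_add_right h9).1 h5
      exact hq.one_lt.ne' (Nat.dvd_one.1 h10)
  refine ⟨m, ?_⟩
  rw [← hDm, hD1, mul_one]

/-- the integer weights -/
noncomputable def wt (m : ℕ) (a : A) (χ : AddChar A ℂ) : ℚ := if a = 0 ∧ χ = 0 then (m : ℚ) else 1

omit [AddCommGroup A] in
theorem S_eq {m : ℕ} (hm : Fintype.card A + 1 = m ^ 2) : S A = m := by
  unfold S
  have h1 : (Fintype.card A : ℝ) + 1 = (m : ℝ) ^ 2 := by exact_mod_cast hm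
  rw [h1, Real.sqrt_sq (by positivity)]
  push_cast
  rfl

theorem S_ov' (hx : IsFiducial x) {m : ℕ} (hm : Fintype.card A + 1 = m ^ 2) (a : A)
    (χ : AddChar A ℂ) : S A * ov x a χ = (wt m a χ : ℂ) * gam x a χ := by
  unfold wt gam
  split_ifs with h
  · rw [h.1, h.2, ov_zero hx, S_eq hm]
    push_cast
    rfl
  · push_cast
    ring

/-- the Galois conjugate of the relation between the overlaps -/
theorem conj_rel (hx : IsFiducial x) {v : A} {χ₀ : AddChar A ℂ} {c : ℂ}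
    (h : ∀ k, x (v - k) = c * χ₀ k * x k) {m : ℕ} (hm : Fintype.card A + 1 = m ^ 2) {t : ℕ}
    (ht : (2 * t + 1).Coprime (2 * Fintype.card A)) (a : A) (ψ : AddChar A ℂ) :
    ∑ χ : AddChar A ℂ, (S A * ov x 0 χ) * (S A * ov x 0 (ψ - χ)) * χ (-a) ^ (2 * t + 1) =
      ψ (-a) ^ t * ∑ χ : AddChar A ℂ, (S A * ov x 0 χ) * (S A * ov x 0 (ψ - χ)) * χ (-a) := by
  have hpos := Fintype.card_pos (α := A)
  have hN : 0 < 2 * Fintype.card A := by omega
  have hJ : ∑ χ : AddChar A ℂ, (S A * ov x 0 χ) * (S A * ov x 0 (ψ - χ)) * χ (-a) =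
      ∑ χ : AddChar A ℂ, conj (S A * ov x a χ) * (S A * ov x a (χ + ψ)) := by
    have h1 := (J2 x a ψ).trans (J1 x a ψ).symm
    have h2 : ∀ χ : AddChar A ℂ, (S A * ov x 0 χ) * (S A * ov x 0 (ψ - χ)) * χ (-a) =
        S A * S A * (ov x 0 χ * ov x 0 (ψ - χ) * χ (-a)) := fun χ => by ring
    have h3 : ∀ χ : AddChar A ℂ, conj (S A * ov x a χ) * (S A * ov x a (χ + ψ)) =
        S A * S A * (conj (ov x a χ) * ov x a (χ + ψ)) := fun χ => by
      rw [map_mul (starRingEnd ℂ), S_conj]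
      ring
    simp_rw [h2, h3]
    rw [← Finset.mul_sum, ← Finset.mul_sum, h1]
  have hL : ∀ χ : AddChar A ℂ, (S A * ov x 0 χ) * (S A * ov x 0 (ψ - χ)) * χ (-a) =
      ((wt m (0 : A) χ * wt m (0 : A) (ψ - χ) : ℚ) : ℂ) *
        (gam x 0 χ * gam x 0 (ψ - χ) * χ (-a)) := by
    intro χ
    rw [S_ov' hx hm, S_ov' hx hm]
    push_cast
    ring
  have hR : ∀ χ : AddChar A ℂ, conj (S A * ov x a χ) * (S A * ov x a (χ + ψ)) =
      ((wt m a χ * wt m a (χ + ψ) : ℚ) : ℂ) * (conj (gam x a χ) * gam x a (χ + ψ)) := by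
    intro χ
    rw [S_ov' hx hm, S_ov' hx hm, map_mul (starRingEnd ℂ)]
    have h3 : conj ((wt m a χ : ℚ) : ℂ) = ((wt m a χ : ℚ) : ℂ) := by
      rw [← Complex.ofReal_ratCast, Complex.conj_ofReal]
    rw [h3]
    push_cast
    ring
  have hz : ∀ χ : AddChar A ℂ,
      (gam x 0 χ * gam x 0 (ψ - χ) * χ (-a)) ^ (2 * Fintype.card A) = 1 := by
    intro χ
    rw [mul_pow, mul_pow, gam_pow hx h, gam_pow hx h, mul_comm 2, pow_mul, char_pow_card]
    simp
  have hw : ∀ χ : AddChar A ℂ,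
      (conj (gam x a χ) * gam x a (χ + ψ)) ^ (2 * Fintype.card A) = 1 := by
    intro χ
    rw [mul_pow, ← map_pow, gam_pow hx h, gam_pow hx h]
    simp
  have hG := gal_eq _ _ _ _ hN hz hw (by
    rw [← Finset.sum_congr rfl fun χ _ => hL χ, ← Finset.sum_congr rfl fun χ _ => hR χ]
    exact hJ) ht
  have hz2 : ∀ χ : AddChar A ℂ, (gam x 0 χ * gam x 0 (ψ - χ) * χ (-a)) ^ (2 * t + 1) =
      ψ v ^ t * (gam x 0 χ * gam x 0 (ψ - χ) * χ (-a) ^ (2 * t + 1)) := by
    intro χ
    have e1 : (gam x 0 χ * gam x 0 (ψ - χ)) ^ 2 = ψ v := by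
      rw [mul_pow, gam_sq hx h, gam_sq hx h, sub_zero, neg_zero, AddChar.map_zero_eq_one, one_mul,
        one_mul, ← AddChar.add_apply]
      congr 1
      abel
    rw [mul_pow, pow_succ (gam x 0 χ * gam x 0 (ψ - χ)), pow_mul (gam x 0 χ * gam x 0 (ψ - χ)), e1]
    ring
  have hw2 : ∀ χ : AddChar A ℂ, (conj (gam x a χ) * gam x a (χ + ψ)) ^ (2 * t + 1) =
      ψ (v - a) ^ t * (conj (gam x a χ) * gam x a (χ + ψ)) := by
    intro χ
    have e1 : (conj (gam x a χ) * gam x a (χ + ψ)) ^ 2 = ψ (v - a) := by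
      rw [mul_pow, ← map_pow, gam_sq hx h, gam_sq hx h, map_mul (starRingEnd ℂ),
        AddChar.add_apply]
      have e2 := char_sq χ₀ (-a)
      have e3 := char_sq χ (v - a)
      linear_combination (χ (v - a) * conj (χ (v - a)) * ψ (v - a)) * e2 + ψ (v - a) * e3
    rw [pow_succ, pow_mul, e1]
  simp_rw [hz2, hw2] at hG
  have hG2 : ψ v ^ t * ∑ χ : AddChar A ℂ,
      (S A * ov x 0 χ) * (S A * ov x 0 (ψ - χ)) * χ (-a) ^ (2 * t + 1) =
      ψ (v - a) ^ t * ∑ χ : AddChar A ℂ, conj (S A * ov x a χ) * (S A * ov x a (χ + ψ)) := by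
    rw [Finset.mul_sum, Finset.mul_sum]
    refine Eq.trans ?_ (hG.trans ?_)
    · refine Finset.sum_congr rfl fun χ _ => ?_
      rw [S_ov' hx hm, S_ov' hx hm]
      push_cast
      ring
    · refine Finset.sum_congr rfl fun χ _ => ?_
      rw [hR χ]
      ring
  rw [← hJ, sub_eq_add_neg v a, AddChar.map_add_eq_mul, mul_pow, mul_assoc] at hG2
  have hne : ψ v ^ t ≠ 0 := pow_ne_zero _ (by
    rw [← norm_pos_iff, norm_char]
    exact one_pos)
  exact mul_left_cancel₀ hne hG2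

/-- the product relation -/
theorem prod_rel (hx : IsFiducial x) {v : A} {χ₀ : AddChar A ℂ} {c : ℂ}
    (h : ∀ k, x (v - k) = c * χ₀ k * x k) {m : ℕ} (hm : Fintype.card A + 1 = m ^ 2) {t : ℕ}
    (ht : (2 * t + 1).Coprime (2 * Fintype.card A)) (ψ : AddChar A ℂ) :
    (S A * ov x 0 0) * (S A * ov x 0 ψ) =
      (S A * ov x 0 (-(t • ψ))) * (S A * ov x 0 (ψ + t • ψ)) := by
  have hc : (2 * t + 1).Coprime (Fintype.card A) := Nat.Coprime.coprime_mul_left_right ht
  have h1 : ∑ a : A, ∑ χ : AddChar A ℂ,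
      (S A * ov x 0 χ) * (S A * ov x 0 (ψ - χ)) * χ (-a) ^ (2 * t + 1) =
      ∑ a : A, ψ (-a) ^ t * ∑ χ : AddChar A ℂ,
        (S A * ov x 0 χ) * (S A * ov x 0 (ψ - χ)) * χ (-a) :=
    Finset.sum_congr rfl fun a _ => conj_rel hx h hm ht a ψ
  simp_rw [Finset.mul_sum] at h1
  rw [Finset.sum_comm] at h1
  conv_rhs at h1 => rw [Finset.sum_comm]
  have hs : ∀ χ : AddChar A ℂ, ∑ a : A, χ (-a) = if χ = 0 then (Fintype.card A : ℂ) else 0 := by
    intro χ
    rw [← AddChar.sum_eq_ite]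
    exact Fintype.sum_equiv (Equiv.neg A) _ _ fun m => by rw [Equiv.neg_apply]
  have hL : ∀ χ : AddChar A ℂ, ∑ a : A,
      (S A * ov x 0 χ) * (S A * ov x 0 (ψ - χ)) * χ (-a) ^ (2 * t + 1) =
      if χ = 0 then (Fintype.card A : ℂ) * ((S A * ov x 0 χ) * (S A * ov x 0 (ψ - χ))) else 0 := by
    intro χ
    rw [← Finset.mul_sum]
    have e1 : ∀ a : A, χ (-a) ^ (2 * t + 1) = ((2 * t + 1) • χ) (-a) := fun a => by
      rw [AddChar.nsmul_apply]
    simp_rw [e1]
    rw [hs]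
    by_cases h0 : χ = 0
    · rw [if_pos h0, h0, nsmul_zero, if_pos rfl]
      ring
    · rw [if_neg h0, if_neg, mul_zero]
      intro h2
      apply h0
      have h3 : addOrderOf χ ∣ 2 * t + 1 := addOrderOf_dvd_of_nsmul_eq_zero h2
      have h4 : addOrderOf χ ∣ Fintype.card A := by
        rw [← AddChar.card_eq (α := A)]
        exact addOrderOf_dvd_card
      have h5 := Nat.dvd_gcd h3 h4
      rw [hc] at h5
      exact AddMonoid.addOrderOf_eq_one_iff.1 (Nat.dvd_one.1 h5)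
  have hR : ∀ χ : AddChar A ℂ, ∑ a : A,
      ψ (-a) ^ t * ((S A * ov x 0 χ) * (S A * ov x 0 (ψ - χ)) * χ (-a)) =
      if χ = -(t • ψ) then (Fintype.card A : ℂ) * ((S A * ov x 0 χ) * (S A * ov x 0 (ψ - χ)))
        else 0 := by
    intro χ
    have e1 : ∀ a : A, ψ (-a) ^ t * ((S A * ov x 0 χ) * (S A * ov x 0 (ψ - χ)) * χ (-a)) =
        (S A * ov x 0 χ) * (S A * ov x 0 (ψ - χ)) * ((χ + t • ψ) (-a)) := fun a => by
      rw [AddChar.add_apply, AddChar.nsmul_apply]
      ring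
    simp_rw [e1]
    rw [← Finset.mul_sum, hs]
    by_cases h0 : χ = -(t • ψ)
    · rw [if_pos h0, h0, neg_add_cancel, if_pos rfl]
      ring
    · rw [if_neg h0, if_neg, mul_zero]
      intro h2
      exact h0 (eq_neg_of_add_eq_zero_left h2)
  rw [Finset.sum_congr rfl fun χ _ => hL χ, Finset.sum_congr rfl fun χ _ => hR χ,
    Finset.sum_ite_eq', Finset.sum_ite_eq', if_pos (Finset.mem_univ _),
    if_pos (Finset.mem_univ _), sub_zero, sub_neg_eq_add] at h1
  exact mul_left_cancel₀ card_ne h1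

/-- no character is moved in two ways -/
theorem no_char (hx : IsFiducial x) {v : A} {χ₀ : AddChar A ℂ} {c : ℂ}
    (h : ∀ k, x (v - k) = c * χ₀ k * x k) {m : ℕ} (hm : Fintype.card A + 1 = m ^ 2) {t : ℕ}
    (ht : (2 * t + 1).Coprime (2 * Fintype.card A)) (ψ : AddChar A ℂ) (h0 : ψ ≠ 0)
    (h1 : t • ψ ≠ 0) : (t + 1) • ψ = 0 := by
  by_contra h2
  have h3 := prod_rel hx h hm ht ψ
  rw [ov_zero hx, mul_one] at h3
  replace h3 := congrArg norm h3
  have h4 : ∀ χ : AddChar A ℂ, χ ≠ 0 → ‖S A * ov x 0 χ‖ = 1 := by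
    intro χ hχ
    rw [← gam_norm hx h 0 χ]
    unfold gam
    rw [if_neg (fun h5 => hχ h5.2)]
  rw [norm_mul (S A) (S A * ov x 0 ψ), norm_mul (S A * ov x 0 (-(t • ψ))), h4 ψ h0,
    h4 _ (neg_ne_zero.2 h1), h4 _ (by rwa [add_comm, ← succ_nsmul]), mul_one, mul_one,
    S_norm] at h3
  have h5 : Real.sqrt ((Fintype.card A : ℝ) + 1) ^ 2 = 1 := by rw [h3, one_pow]
  rw [Real.sq_sqrt (by positivity)] at h5
  have h6 : (Fintype.card A : ℝ) = 0 := by linarith
  have h7 := Fintype.card_pos (α := A)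
  have h8 : Fintype.card A = 0 := by exact_mod_cast h6
  omega

/-- a suitable exponent -/
theorem exists_t {d e : ℕ} (hd : 0 < d) (he : e ∣ d) (he4 : 4 ≤ e) :
    ∃ t : ℕ, (2 * t + 1).Coprime (2 * d) ∧ ¬ e ∣ t ∧ ¬ e ∣ t + 1 := by
  obtain ⟨s0, hs0, hmod⟩ : ∃ s0 : ℕ, s0.Coprime (2 * e) ∧
      (s0 = e + 1 ∧ Even e ∨ s0 = e + 2 ∧ Odd e) := by
    rcases Nat.even_or_odd e with h | h
    · refine ⟨e + 1, ?_, Or.inl ⟨rfl, h⟩⟩
      apply Nat.Coprime.mul_right
      · rw [Nat.coprime_two_right]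
        exact h.add_one
      · simp
    · refine ⟨e + 2, ?_, Or.inr ⟨rfl, h⟩⟩
      apply Nat.Coprime.mul_right
      · rw [Nat.coprime_two_right]
        exact h.add_even even_two
      · rw [Nat.coprime_self_add_left]
        exact (Nat.coprime_two_left).2 h
  have : NeZero (2 * e) := ⟨by omega⟩
  obtain ⟨p, hp1, hp, hp2⟩ := Nat.forall_exists_prime_gt_and_eq_mod
    ((ZMod.isUnit_iff_coprime s0 (2 * e)).2 hs0) (2 * d)
  have hpc : p.Coprime (2 * d) := by
    rw [Nat.Prime.coprime_iff_not_dvd hp]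
    intro h
    exact absurd (Nat.le_of_dvd (by omega) h) (by omega)
  have hpm : p % (2 * e) = s0 % (2 * e) := (ZMod.natCast_eq_natCast_iff' _ _ _).1 hp2
  have hpodd : Odd p := by
    rw [← Nat.coprime_two_right]
    exact Nat.Coprime.coprime_mul_right_right hpc
  obtain ⟨t, ht⟩ := hpodd
  refine ⟨t, by rwa [← ht], ?_, ?_⟩
  · rintro ⟨k, hk⟩
    have h1 : p = 2 * e * k + 1 := by rw [ht, hk]; ring
    rw [h1, Nat.mul_add_mod, Nat.mod_eq_of_lt (by omega)] at hpm
    rcases hmod with ⟨h2, -⟩ | ⟨h2, -⟩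
    · rw [h2, Nat.mod_eq_of_lt (by omega)] at hpm
      omega
    · rw [h2, Nat.mod_eq_of_lt (by omega)] at hpm
      omega
  · rintro ⟨k, hk⟩
    cases k with
    | zero => omega
    | succ k =>
      have h1 : p = 2 * e * k + (2 * e - 1) := by
        have h3 : 2 * t + 2 = 2 * e * k + 2 * e := by
          rw [show 2 * t + 2 = 2 * (t + 1) by ring, hk]
          ring
        omega
      rw [h1, Nat.mul_add_mod, Nat.mod_eq_of_lt (by omega)] at hpm
      rcases hmod with ⟨h2, -⟩ | ⟨h2, ho⟩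
      · rw [h2, Nat.mod_eq_of_lt (by omega)] at hpm
        omega
      · rw [h2, Nat.mod_eq_of_lt (by omega)] at hpm
        omega

/-- all characters have order at most three -/
theorem order_le (hd : 3 ≤ Fintype.card A) (hx : IsFiducial x) {v : A} {χ₀ : AddChar A ℂ} {c : ℂ}
    (h : ∀ k, x (v - k) = c * χ₀ k * x k) (ψ : AddChar A ℂ) : addOrderOf ψ ≤ 3 := by
  obtain ⟨m, hm⟩ := exists_m hd hx h
  by_contra h4
  push Not at h4
  have hdvd : addOrderOf ψ ∣ Fintype.card A := by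
    rw [← AddChar.card_eq (α := A)]
    exact addOrderOf_dvd_card
  obtain ⟨t, ht, h5, h6⟩ := exists_t (by omega) hdvd h4
  have h7 := no_char hx h hm ht ψ (by
    rintro rfl
    rw [addOrderOf_zero] at h4
    omega) (fun h8 => h5 (addOrderOf_dvd_of_nsmul_eq_zero h8))
  exact h6 (addOrderOf_dvd_of_nsmul_eq_zero h7)

/-- a finite abelian group of elements of order at most three -/
theorem elem {B : Type*} [AddCommGroup B] (h : ∀ b : B, addOrderOf b ≤ 3)
    (hfin : Finite B) : (∀ b : B, 2 • b = 0) ∨ (∀ b : B, 3 • b = 0) := by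
  by_contra hne
  push Not at hne
  obtain ⟨⟨b, hb⟩, ⟨e, he⟩⟩ := hne
  have hpos : ∀ b : B, 0 < addOrderOf b := fun b => addOrderOf_pos b
  have hb3 : addOrderOf b = 3 := by
    have h1 := h b
    have h2 := hpos b
    have h3 : ¬ addOrderOf b ∣ 2 := fun h4 => hb (addOrderOf_dvd_iff_nsmul_eq_zero.1 h4)
    interval_cases h5 : addOrderOf b
    · exact absurd (one_dvd 2) h3
    · exact absurd dvd_rfl h3
    · rfl
  have he2 : addOrderOf e = 2 := by
    have h1 := h e
    have h2 := hpos e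
    have h3 : ¬ addOrderOf e ∣ 3 := fun h4 => he (addOrderOf_dvd_iff_nsmul_eq_zero.1 h4)
    interval_cases h5 : addOrderOf e
    · exact absurd (one_dvd 3) h3
    · rfl
    · exact absurd dvd_rfl h3
  have h6 : addOrderOf (b + e) = addOrderOf b * addOrderOf e :=
    (AddCommute.all b e).addOrderOf_add_eq_mul_addOrderOf_of_coprime (by rw [hb3, he2]; decide)
  have h7 := h (b + e)
  rw [h6, hb3, he2] at h7
  omega

/-- the dimensions -/
theorem pow_two_case {k m : ℕ} (h : 2 ^ k + 1 = m ^ 2) : 2 ^ k = 8 := by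
  have hm : 1 < m := by
    by_contra h1
    push Not at h1
    have := Nat.pow_le_pow_left h1 2
    have h2 : 0 < 2 ^ k := by positivity
    omega
  obtain ⟨n, rfl⟩ : ∃ n, m = n + 2 := ⟨m - 2, by omega⟩
  have h3 : 2 ^ k = (n + 1) * (n + 3) := by
    have : (n + 2) ^ 2 = (n + 1) * (n + 3) + 1 := by ring
    omega
  obtain ⟨i, -, hi⟩ := (Nat.dvd_prime_pow Nat.prime_two).1 (Dvd.intro _ h3.symm)
  obtain ⟨j, -, hj⟩ := (Nat.dvd_prime_pow Nat.prime_two).1 (Dvd.intro_left _ h3.symm)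
  have hi1 : i ≤ 1 := by
    by_contra h1
    push Not at h1
    have h2 : 4 ∣ 2 ^ i := by
      rw [show 4 = 2 ^ 2 by norm_num]
      exact pow_dvd_pow 2 h1
    have h4 : 2 ≤ j := by
      by_contra h5
      push Not at h5
      have : 2 ^ j ≤ 2 ^ 1 := Nat.pow_le_pow_right (by norm_num) (by omega)
      omega
    have h3 : 4 ∣ 2 ^ j := by
      rw [show 4 = 2 ^ 2 by norm_num]
      exact pow_dvd_pow 2 h4
    omega
  interval_cases i
  · have hn : n = 0 := by omega
    subst hn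
    exfalso
    have : 1 ≤ j := by
      by_contra h5
      have : j = 0 := by omega
      subst this
      omega
    have h3 : 2 ∣ 2 ^ j := dvd_pow_self 2 (by omega)
    omega
  · have hn : n = 1 := by omega
    subst hn
    omega

theorem pow_three_case {k m : ℕ} (h : 3 ^ k + 1 = m ^ 2) : 3 ^ k = 3 := by
  have hm : 1 < m := by
    by_contra h1
    push Not at h1
    have := Nat.pow_le_pow_left h1 2
    have h2 : 0 < 3 ^ k := by positivity
    omega
  obtain ⟨n, rfl⟩ : ∃ n, m = n + 2 := ⟨m - 2, by omega⟩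
  have h3 : 3 ^ k = (n + 1) * (n + 3) := by
    have : (n + 2) ^ 2 = (n + 1) * (n + 3) + 1 := by ring
    omega
  obtain ⟨i, -, hi⟩ := (Nat.dvd_prime_pow Nat.prime_three).1 (Dvd.intro _ h3.symm)
  obtain ⟨j, -, hj⟩ := (Nat.dvd_prime_pow Nat.prime_three).1 (Dvd.intro_left _ h3.symm)
  have hi1 : i = 0 := by
    by_contra h1
    have h2 : 3 ∣ 3 ^ i := dvd_pow_self 3 h1
    have h4 : j ≠ 0 := by
      rintro rfl
      omega
    have h3 : 3 ∣ 3 ^ j := dvd_pow_self 3 h4
    omega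
  subst hi1
  have hn : n = 0 := by omega
  subst hn
  omega

/-- the forward direction -/
theorem forward (hd : 3 ≤ Fintype.card A) (hx : IsFiducial x) {v : A} {χ₀ : AddChar A ℂ} {c : ℂ}
    (h : ∀ k, x (v - k) = c * χ₀ k * x k) :
    Fintype.card A = 3 ∨ (Fintype.card A = 8 ∧ ∀ a : A, a + a = 0) := by
  obtain ⟨m, hm⟩ := exists_m hd hx h
  rcases elem (B := AddChar A ℂ) (order_le hd hx h) inferInstance with h2 | h3
  · right
    have : Fact (Nat.Prime 2) := ⟨Nat.prime_two⟩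
    let _ : Module (ZMod 2) (AddChar A ℂ) := AddCommGroup.zmodModule h2
    have h4 := Module.card_eq_pow_finrank (K := ZMod 2) (V := AddChar A ℂ)
    rw [AddChar.card_eq, ZMod.card] at h4
    constructor
    · rw [h4]
      rw [h4] at hm
      exact pow_two_case hm
    · intro a
      by_contra hne
      obtain ⟨ψ, hψ⟩ := AddChar.exists_apply_ne_zero.2 hne
      apply hψ
      rw [AddChar.map_add_eq_mul, ← AddChar.add_apply, ← two_nsmul, h2, AddChar.zero_apply]
  · left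
    have : Fact (Nat.Prime 3) := ⟨Nat.prime_three⟩
    let _ : Module (ZMod 3) (AddChar A ℂ) := AddCommGroup.zmodModule h3
    have h4 := Module.card_eq_pow_finrank (K := ZMod 3) (V := AddChar A ℂ)
    rw [AddChar.card_eq, ZMod.card] at h4
    rw [h4]
    rw [h4] at hm
    exact pow_three_case hm

end Pool.Agent.L7h35.Par
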